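import Pool.Agent.N922.PQ.Stm2

/-!
Project PV (helper922), part CAL: the classes of points modulo `4`.
-/

set_option autoImplicit false

open Polynomial

namespace Pool.Agent.N323.PV

section Ring

variable {O : Type*} [CommRing O]

lemma even_of_dvd (h1 : ¬ (2 : O) ∣ 1) {n : ℤ} (h : (2 : O) ∣ (n : O)) : Even n := by
  by_contra hn
  rw [Int.not_even_iff_odd] at hn
  obtain ⟨k, rfl⟩ := hn
  apply h1
  have : (1 : O) = ((2 * k + 1 : ℤ) : O) - 2 * (k : O) := by push_cast; ring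
  rw [this]
  exact dvd_sub h (dvd_mul_right _ _)

/-- squares modulo `f` in the ring of integers: the case of a square -/
lemma ringA (h1 : ¬ (2 : O) ∣ 1) (h2 : ∀ u : O, 2 ∣ u ^ 2 → 2 ∣ u)
    (h0 : ∀ u w : O, 2 * u = 2 * w → u = w) (a b : ℤ) (hb : Odd b) (g₁ g₂ : ℤ)
    (r s t t0 t1 t2 : O)
    (e0 : 1 + 4 * r = t0 ^ 2 - 2 * t1 * t2 * b)
    (e1 : 2 * g₁ + 4 * s = 2 * t0 * t1 - 2 * t1 * t2 * a - t2 ^ 2 * b)
    (e2 : 2 * g₂ + 4 * t = t1 ^ 2 + 2 * t0 * t2 - t2 ^ 2 * a) : Even g₁ ∧ Even g₂ := by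
  obtain ⟨k, rfl⟩ := hb
  push_cast at e0 e1 e2
  obtain ⟨u2, hu2⟩ : (2 : O) ∣ t2 := by
    apply h2
    refine ⟨t0 * t1 - t1 * t2 * a - t2 ^ 2 * k - g₁ - 2 * s, ?_⟩
    linear_combination e1
  obtain ⟨u1, hu1⟩ : (2 : O) ∣ t1 := by
    apply h2
    refine ⟨g₂ + 2 * t - t0 * t2 + u2 * t2 * a, ?_⟩
    linear_combination -e2 + (a * t2) * hu2
  constructor
  · apply even_of_dvd h1
    refine ⟨t0 * u1 - 2 * u1 * u2 * a - u2 ^ 2 * (2 * k + 1) - s, ?_⟩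
    apply h0
    rw [hu1, hu2] at e1
    linear_combination e1
  · apply even_of_dvd h1
    refine ⟨u1 ^ 2 + t0 * u2 - u2 ^ 2 * a - t, ?_⟩
    apply h0
    rw [hu1, hu2] at e2
    linear_combination e2

/-- the case of an integral point -/
lemma ringB (h1 : ¬ (2 : O) ∣ 1) (h2 : ∀ u : O, 2 ∣ u ^ 2 → 2 ∣ u)
    (h0 : ∀ u w : O, 2 * u = 2 * w → u = w) (a b : ℤ) (ha : Odd a) (hab : (4 : ℤ) ∣ a - b)
    (g₁ g₂ : ℤ) (r s t x t0 t1 t2 : O)
    (e0 : x * (1 + 4 * r) + (2 * g₂ + 4 * t) * b = t0 ^ 2 - 2 * t1 * t2 * b)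
    (e1 : x * (2 * g₁ + 4 * s) - (1 + 4 * r) + (2 * g₂ + 4 * t) * a =
      2 * t0 * t1 - 2 * t1 * t2 * a - t2 ^ 2 * b)
    (e2 : x * (2 * g₂ + 4 * t) - (2 * g₁ + 4 * s) = t1 ^ 2 + 2 * t0 * t2 - t2 ^ 2 * a) :
    (Even g₁ ∧ Even g₂) ∨ ((4 : ℤ) ∣ 2 * g₁ - (1 - a) ∧ (4 : ℤ) ∣ 2 * g₂ - (3 - a)) := by
  obtain ⟨A, hA⟩ : ∃ A : ℤ, a = 1 - 2 * A := by
    obtain ⟨k, hk⟩ := ha
    exact ⟨-k, by omega⟩
  obtain ⟨B, hB⟩ : ∃ B : ℤ, b = 1 - 2 * A - 4 * B := by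
    obtain ⟨k, hk⟩ := hab
    exact ⟨k, by omega⟩
  subst hA
  subst hB
  push_cast at e0 e1 e2
  -- `x = t0²` modulo `2`
  obtain ⟨u3, hu3⟩ : ∃ u3 : O, x = t0 ^ 2 + 2 * u3 := by
    refine ⟨-(t1 * t2 * (1 - 2 * A - 4 * B)) - 2 * r * x - (g₂ + 2 * t) * (1 - 2 * A - 4 * B), ?_⟩
    linear_combination e0
  obtain ⟨u2, hu2⟩ : (2 : O) ∣ t2 - 1 := by
    apply h2
    refine ⟨t0 * t1 - t1 * t2 * (1 - 2 * A) + t2 ^ 2 * (A + 2 * B) - x * (g₁ + 2 * s) + 1 + 2 * r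
      - (g₂ + 2 * t) * (1 - 2 * A) - t2, ?_⟩
    linear_combination e1
  have hu2' : t2 = 1 + 2 * u2 := by linear_combination hu2
  obtain ⟨u1, hu1⟩ : (2 : O) ∣ t1 - 1 := by
    apply h2
    refine ⟨x * (g₂ + 2 * t) - (g₁ + 2 * s) - t0 * t2 + (1 + 2 * u2 + 2 * u2 ^ 2 - t2 ^ 2 * A) - t1,
      ?_⟩
    linear_combination -e2 + (t2 + 1 + 2 * u2) * hu2'
  have hu1' : t1 = 1 + 2 * u1 := by linear_combination hu1
  have E1 : (2 : O) ∣ g₁ * t0 ^ 2 + g₂ - t0 - 1 - A := by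
    refine ⟨-(g₁ * u3) - s * x + r + g₂ * A - t * (1 - 2 * A) + t0 * u1
      - (u1 + u2 + 2 * u1 * u2) * (1 - 2 * A) - (u2 + u2 ^ 2) * (1 - 2 * A - 4 * B) + B - 1 + A, ?_⟩
    apply h0
    rw [hu1', hu2'] at e1
    linear_combination e1 - (2 * (g₁ : O)) * hu3
  have E2 : (2 : O) ∣ g₂ * t0 ^ 2 + g₁ - t0 - A := by
    refine ⟨-(g₂ * u3) - t * x + s + g₁ + (u1 + u1 ^ 2) + t0 * u2
      - (u2 + u2 ^ 2) * (1 - 2 * A), ?_⟩
    apply h0
    rw [hu1', hu2'] at e2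
    linear_combination e2 - (2 * (g₂ : O)) * hu3
  rcases Int.even_or_odd g₁ with hg1 | hg1 <;> rcases Int.even_or_odd g₂ with hg2 | hg2
  · exact Or.inl ⟨hg1, hg2⟩
  · right
    obtain ⟨i, rfl⟩ := hg1
    obtain ⟨j, rfl⟩ := hg2
    push_cast at E1 E2
    obtain ⟨w1, hw1⟩ := E1
    obtain ⟨w2, hw2⟩ := E2
    obtain ⟨P, hP⟩ : ∃ P : O, P = i * t0 ^ 2 + j - w1 := ⟨_, rfl⟩
    have h4 : t0 = -A + 2 * P := by linear_combination -hw1 - 2 * hP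
    have h3 : Even (A ^ 2) := by
      apply even_of_dvd h1
      refine ⟨w2 - j * t0 ^ 2 - i + 2 * A * P - 2 * P ^ 2 + P, ?_⟩
      push_cast
      linear_combination hw2 - (t0 - A + 2 * P - 1) * h4
    obtain ⟨k, hk⟩ := (Int.even_pow.1 h3).1
    constructor <;> omega
  · right
    obtain ⟨i, rfl⟩ := hg1
    obtain ⟨j, rfl⟩ := hg2
    push_cast at E1 E2
    obtain ⟨w1, hw1⟩ := E1
    obtain ⟨w2, hw2⟩ := E2
    obtain ⟨P, hP⟩ : ∃ P : O, P = j * t0 ^ 2 + i - w2 := ⟨_, rfl⟩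
    have h4 : t0 = 1 - A + 2 * P := by linear_combination -hw2 - 2 * hP
    have h3 : Even (A ^ 2 - 1) := by
      apply even_of_dvd h1
      refine ⟨w1 - i * t0 ^ 2 - j - P * (1 - 2 * A + 2 * P) + A, ?_⟩
      push_cast
      linear_combination hw1 - (t0 - A + 2 * P) * h4
    have h5 : Odd A := by
      by_contra hA
      rw [Int.not_odd_iff_even] at hA
      obtain ⟨k, rfl⟩ := hA
      obtain ⟨m, hm⟩ := h3
      have h6 : (k + k) ^ 2 = 2 * (2 * k ^ 2) := by ring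
      omega
    obtain ⟨k, hk⟩ := h5
    constructor <;> omega
  · exfalso
    obtain ⟨i, rfl⟩ := hg1
    obtain ⟨j, rfl⟩ := hg2
    push_cast at E1 E2
    obtain ⟨w1, hw1⟩ := E1
    obtain ⟨w2, hw2⟩ := E2
    apply h1
    refine ⟨(i + j + 1) * (t0 ^ 2 + 1) - t0 - A - w1 - w2, ?_⟩
    linear_combination -hw1 - hw2

end Ring

/-! ### polynomials modulo `f` -/

open Pool.Agent.N922.PQ

section Poly

variable {F : Type} [Field F]

lemma zero_of_dvd {a b : ℤ} {u0 u1 u2 : F}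
    (h : ff F a b ∣ C u0 + C u1 * X + C u2 * X ^ 2) : u0 = 0 ∧ u1 = 0 ∧ u2 = 0 := by
  have h1 : C u0 + C u1 * X + C u2 * X ^ 2 = 0 := by
    apply Polynomial.eq_zero_of_dvd_of_natDegree_lt h
    rw [ff_deg]
    have : (C u0 + C u1 * X + C u2 * X ^ 2).natDegree ≤ 2 := by compute_degree
    omega
  have e0 := congrArg (fun p : F[X] => p.coeff 0) h1
  have e1 := congrArg (fun p : F[X] => p.coeff 1) h1
  have e2 := congrArg (fun p : F[X] => p.coeff 2) h1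
  simp [coeff_X, coeff_C, coeff_X_pow] at e0 e1 e2
  exact ⟨e0, e1, e2⟩

/-- a square modulo `f` -/
lemma sq_form {a b : ℤ} (q0 q1 q2 : F) (g : F[X])
    (h : ff F a b ∣ C q0 + C q1 * X + C q2 * X ^ 2 - g ^ 2) : ∃ t0 t1 t2 : F,
    q0 = t0 ^ 2 - 2 * t1 * t2 * b ∧ q1 = 2 * t0 * t1 - 2 * t1 * t2 * a - t2 ^ 2 * b ∧
    q2 = t1 ^ 2 + 2 * t0 * t2 - t2 ^ 2 * a := by
  have hm := ff_monic F a b
  have hd : (g %ₘ ff F a b).natDegree < 3 := by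
    have := Polynomial.natDegree_modByMonic_lt g hm (by
      intro h1
      have := ff_deg F a b
      rw [h1] at this
      simp at this)
    rwa [ff_deg] at this
  obtain ⟨ρ, hρ⟩ : ∃ ρ, ρ = g %ₘ ff F a b := ⟨_, rfl⟩
  have h1 : ff F a b ∣ g - ρ := by
    rw [hρ]
    exact ⟨g /ₘ ff F a b, by
      have := Polynomial.modByMonic_add_div g (ff F a b)
      linear_combination -this⟩
  have h2 : ρ = C (ρ.coeff 0) + C (ρ.coeff 1) * X + C (ρ.coeff 2) * X ^ 2 := by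
    rw [← hρ] at hd
    conv_lhs => rw [Polynomial.as_sum_range' ρ 3 hd]
    simp [Finset.sum_range_succ, ← C_mul_X_pow_eq_monomial]
  obtain ⟨t0, ht0⟩ : ∃ t, t = ρ.coeff 0 := ⟨_, rfl⟩
  obtain ⟨t1, ht1⟩ : ∃ t, t = ρ.coeff 1 := ⟨_, rfl⟩
  obtain ⟨t2, ht2⟩ : ∃ t, t = ρ.coeff 2 := ⟨_, rfl⟩
  rw [← ht0, ← ht1, ← ht2] at h2
  have h3 : ff F a b ∣ C (q0 - (t0 ^ 2 - 2 * t1 * t2 * b)) +
      C (q1 - (2 * t0 * t1 - 2 * t1 * t2 * a - t2 ^ 2 * b)) * X +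
      C (q2 - (t1 ^ 2 + 2 * t0 * t2 - t2 ^ 2 * a)) * X ^ 2 := by
    have h4 : ff F a b ∣ (g - ρ) * (g + ρ) := Dvd.dvd.mul_right h1 _
    have h5 := dvd_add h h4
    have h6 : ff F a b ∣ ff F a b * (C (2 * t1 * t2) + C (t2 ^ 2) * X) := dvd_mul_right _ _
    have h7 := dvd_add h5 h6
    convert h7 using 1
    unfold ff
    rw [h2]
    simp only [map_add, map_sub, map_mul, map_pow, map_ofNat, C_eq_intCast]
    ring
  obtain ⟨k0, k1, k2⟩ := zero_of_dvd h3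
  exact ⟨t0, t1, t2, by linear_combination k0, by linear_combination k1, by linear_combination k2⟩

end Poly

/-! ### valuations -/

section Val

variable {F Γ : Type} [Field F] [CharZero F] [LinearOrderedCommGroupWithZero Γ] (v : Valuation F Γ)

omit [CharZero F] in
lemma int_le (n : ℤ) : v (n : F) ≤ 1 := by
  have h : (n : F) ∈ v.integer := intCast_mem v.integer n
  exact h

omit [CharZero F] in
lemma odd_one (hv2 : v 2 < 1) {n : ℤ} (hn : Odd n) : v (n : F) = 1 := by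
  obtain ⟨k, rfl⟩ := hn
  have h1 : v (2 * (k : F)) < 1 := by
    rw [map_mul]
    exact mul_lt_one_of_nonneg_of_lt_one_left zero_le' hv2 (int_le v k)
  have h2 := Valuation.map_one_add_of_lt v h1
  push_cast
  rwa [add_comm]

/-- integrality of the coefficients of a square root -/
lemma integral (hv2 : v 2 < 1) {a b : ℤ} (hb : Odd b) {c0 c1 c2 t0 t1 t2 : F}
    (e0 : c0 = t0 ^ 2 - 2 * t1 * t2 * b)
    (e1 : c1 = 2 * t0 * t1 - 2 * t1 * t2 * a - t2 ^ 2 * b)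
    (e2 : c2 = t1 ^ 2 + 2 * t0 * t2 - t2 ^ 2 * a) (h0 : v c0 ≤ 1) (h1 : v c1 ≤ 1)
    (h2 : v c2 ≤ 1) : v t0 ≤ 1 ∧ v t1 ≤ 1 ∧ v t2 ≤ 1 := by
  by_contra hcon
  obtain ⟨M, hM⟩ : ∃ M, M = max (v t0) (max (v t1) (v t2)) := ⟨_, rfl⟩
  have m0 : v t0 ≤ M := hM ▸ le_max_left _ _
  have m1 : v t1 ≤ M := hM ▸ (le_max_left _ _).trans (le_max_right _ _)
  have m2 : v t2 ≤ M := hM ▸ (le_max_right _ _).trans (le_max_right _ _)
  have hM1 : 1 < M := by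
    by_contra h
    rw [not_lt] at h
    exact hcon ⟨m0.trans h, m1.trans h, m2.trans h⟩
  have hM0 : 0 < M := lt_trans zero_lt_one hM1
  have hMM : 1 < M ^ 2 := one_lt_pow₀ hM1 two_ne_zero
  have hMM0 : 0 < M ^ 2 := lt_trans zero_lt_one hMM
  have small : ∀ (u w : F) (n : ℤ), v u ≤ M → v w ≤ M → v (2 * u * w * n) < M ^ 2 := by
    intro u w n hu hw
    rw [map_mul, map_mul, map_mul]
    have k1 : v 2 * v u * v w * v (n : F) ≤ v 2 * M ^ 2 := by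
      calc v 2 * v u * v w * v (n : F) ≤ v 2 * M * M * 1 := by
            gcongr
            exact int_le v n
        _ = v 2 * M ^ 2 := by rw [mul_one, mul_assoc, ← sq]
    refine lt_of_le_of_lt k1 ?_
    calc v 2 * M ^ 2 < 1 * M ^ 2 := by
          apply mul_lt_mul_of_pos_right hv2 hMM0
      _ = M ^ 2 := one_mul _
  have small' : ∀ (u w : F), v u ≤ M → v w ≤ M → v (2 * u * w) < M ^ 2 := by
    intro u w hu hw
    have := small u w 1 hu hw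
    simpa using this
  have n0 : v t0 < M := by
    apply lt_of_pow_lt_pow_left₀ 2 hM0.le
    rw [← map_pow]
    have : t0 ^ 2 = c0 + 2 * t1 * t2 * b := by rw [e0]; ring
    rw [this]
    exact v.map_add_lt (lt_of_le_of_lt h0 hMM) (small t1 t2 b m1 m2)
  have n2' : v (t2 ^ 2) < M ^ 2 := by
    have : v (t2 ^ 2) = v (t2 ^ 2 * b) := by rw [map_mul, odd_one v hv2 hb, mul_one]
    rw [this]
    have : t2 ^ 2 * b = 2 * t0 * t1 - 2 * t1 * t2 * a - c1 := by rw [e1]; ring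
    rw [this]
    exact v.map_sub_lt (v.map_sub_lt (small' t0 t1 m0 m1) (small t1 t2 a m1 m2))
      (lt_of_le_of_lt h1 hMM)
  have n2 : v t2 < M := by
    apply lt_of_pow_lt_pow_left₀ 2 hM0.le
    rwa [← map_pow]
  have n1 : v t1 < M := by
    apply lt_of_pow_lt_pow_left₀ 2 hM0.le
    rw [← map_pow]
    have : t1 ^ 2 = c2 - 2 * t0 * t2 + t2 ^ 2 * a := by rw [e2]; ring
    rw [this]
    refine v.map_add_lt (v.map_sub_lt (lt_of_le_of_lt h2 hMM) (small' t0 t2 m0 m2)) ?_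
    rw [map_mul]
    calc v (t2 ^ 2) * v (a : F) ≤ v (t2 ^ 2) * 1 := by
          gcongr
          exact int_le v a
      _ = v (t2 ^ 2) := mul_one _
      _ < M ^ 2 := n2'
  have : max (v t0) (max (v t1) (v t2)) < M := max_lt n0 (max_lt n1 n2)
  rw [← hM] at this
  exact lt_irrefl _ this

lemma two_ne : (2 : F) ≠ 0 := two_ne_zero

/-- division by two -/
lemma half {u : F} (h : v u ≤ v 2) : ∃ w : F, v w ≤ 1 ∧ u = 2 * w := by
  refine ⟨u / 2, ?_, by field_simp⟩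
  rw [map_div₀]
  exact div_le_one_of_le₀ h zero_le'

lemma int_h1 (hv2 : v 2 < 1) : ¬ (2 : v.integer) ∣ 1 := by
  rintro ⟨w, hw⟩
  have h1 := congrArg (Subtype.val) hw
  have h2 : (1 : F) = 2 * (w : F) := h1
  have h3 : v (1 : F) = v 2 * v (w : F) := by rw [h2, map_mul]
  rw [map_one] at h3
  have h4 : v 2 * v (w : F) < 1 := mul_lt_one_of_nonneg_of_lt_one_left zero_le' hv2 w.2
  rw [← h3] at h4
  exact lt_irrefl _ h4

lemma int_h2 (hv2 : v 2 < 1) (hv : ∀ x : F, v x < 1 → v x ≤ v 2) (u : v.integer)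
    (h : (2 : v.integer) ∣ u ^ 2) : (2 : v.integer) ∣ u := by
  obtain ⟨w, hw⟩ := h
  have h2 : (u : F) ^ 2 = 2 * (w : F) := congrArg (Subtype.val) hw
  have h3 : v (u : F) ^ 2 < 1 := by
    rw [← map_pow, h2, map_mul]
    exact mul_lt_one_of_nonneg_of_lt_one_left zero_le' hv2 w.2
  have h4 : v (u : F) < 1 := by
    by_contra hc
    rw [not_lt] at hc
    exact absurd h3 (not_lt.2 (one_le_pow₀ hc))
  obtain ⟨z, hz, hz'⟩ := half v (hv _ h4)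
  exact ⟨⟨z, hz⟩, Subtype.ext hz'⟩

lemma int_h0 (u w : v.integer) (h : 2 * u = 2 * w) : u = w := by
  have h2 : (2 : F) * u = 2 * w := congrArg (Subtype.val) h
  exact Subtype.ext (mul_left_cancel₀ two_ne h2)

/-- the case of a square -/
lemma caseA (hv2 : v 2 < 1) (hv : ∀ x : F, v x < 1 → v x ≤ v 2) {a b : ℤ} (hb : Odd b)
    (g₁ g₂ : ℤ) {r s t t0 t1 t2 : F} (hr : v r ≤ 1) (hs : v s ≤ 1) (ht : v t ≤ 1)
    (e0 : 1 + 4 * r = t0 ^ 2 - 2 * t1 * t2 * b)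
    (e1 : 2 * g₁ + 4 * s = 2 * t0 * t1 - 2 * t1 * t2 * a - t2 ^ 2 * b)
    (e2 : 2 * g₂ + 4 * t = t1 ^ 2 + 2 * t0 * t2 - t2 ^ 2 * a) : Even g₁ ∧ Even g₂ := by
  let r' : v.integer := ⟨r, hr⟩
  let s' : v.integer := ⟨s, hs⟩
  let t' : v.integer := ⟨t, ht⟩
  obtain ⟨k0, k1, k2⟩ := integral v hv2 hb e0 e1 e2 (1 + 4 * r' : v.integer).2
    (2 * (g₁ : v.integer) + 4 * s' : v.integer).2 (2 * (g₂ : v.integer) + 4 * t' : v.integer).2
  exact ringA (O := v.integer) (int_h1 v hv2) (int_h2 v hv2 hv) (int_h0 v) a b hb g₁ g₂ r' s' t'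
    ⟨t0, k0⟩ ⟨t1, k1⟩ ⟨t2, k2⟩ (Subtype.ext e0) (Subtype.ext e1) (Subtype.ext e2)

/-- the case of an integral point -/
lemma caseB (hv2 : v 2 < 1) (hv : ∀ x : F, v x < 1 → v x ≤ v 2) {a b : ℤ} (ha : Odd a)
    (hab : (4 : ℤ) ∣ a - b)
    (g₁ g₂ : ℤ) {r s t x t0 t1 t2 : F} (hr : v r ≤ 1) (hs : v s ≤ 1) (ht : v t ≤ 1) (hx : v x ≤ 1)
    (e0 : x * (1 + 4 * r) + (2 * g₂ + 4 * t) * b = t0 ^ 2 - 2 * t1 * t2 * b)
    (e1 : x * (2 * g₁ + 4 * s) - (1 + 4 * r) + (2 * g₂ + 4 * t) * a =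
      2 * t0 * t1 - 2 * t1 * t2 * a - t2 ^ 2 * b)
    (e2 : x * (2 * g₂ + 4 * t) - (2 * g₁ + 4 * s) = t1 ^ 2 + 2 * t0 * t2 - t2 ^ 2 * a) :
    (Even g₁ ∧ Even g₂) ∨ ((4 : ℤ) ∣ 2 * g₁ - (1 - a) ∧ (4 : ℤ) ∣ 2 * g₂ - (3 - a)) := by
  have hb : Odd b := by
    obtain ⟨k, hk⟩ := ha
    obtain ⟨l, hl⟩ := hab
    exact ⟨k - 2 * l, by omega⟩
  let r' : v.integer := ⟨r, hr⟩
  let s' : v.integer := ⟨s, hs⟩
  let t' : v.integer := ⟨t, ht⟩
  let x' : v.integer := ⟨x, hx⟩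
  obtain ⟨k0, k1, k2⟩ := integral v hv2 hb e0 e1 e2
    (x' * (1 + 4 * r') + (2 * (g₂ : v.integer) + 4 * t') * (b : v.integer) : v.integer).2
    (x' * (2 * (g₁ : v.integer) + 4 * s') - (1 + 4 * r') +
      (2 * (g₂ : v.integer) + 4 * t') * (a : v.integer) : v.integer).2
    (x' * (2 * (g₂ : v.integer) + 4 * t') - (2 * (g₁ : v.integer) + 4 * s') : v.integer).2
  exact ringB (O := v.integer) (int_h1 v hv2) (int_h2 v hv2 hv) (int_h0 v) a b ha hab g₁ g₂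
    r' s' t' x' ⟨t0, k0⟩ ⟨t1, k1⟩ ⟨t2, k2⟩ (Subtype.ext e0) (Subtype.ext e1) (Subtype.ext e2)

/-- the case of a point near the origin of the group -/
lemma caseC (hv2 : v 2 < 1) (hv : ∀ x : F, v x < 1 → v x ≤ v 2) {a b : ℤ} (hb : Odd b)
    (g₁ g₂ : ℤ) {r s t x y t0 t1 t2 : F} (hr : v r ≤ 1) (hs : v s ≤ 1) (ht : v t ≤ 1)
    (hx : 1 < v x) (hy : y ≠ 0) (hxy : y ^ 2 = x ^ 3 + a * x + b)
    (e0 : x * (1 + 4 * r) + (2 * g₂ + 4 * t) * b = t0 ^ 2 - 2 * t1 * t2 * b)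
    (e1 : x * (2 * g₁ + 4 * s) - (1 + 4 * r) + (2 * g₂ + 4 * t) * a =
      2 * t0 * t1 - 2 * t1 * t2 * a - t2 ^ 2 * b)
    (e2 : x * (2 * g₂ + 4 * t) - (2 * g₁ + 4 * s) = t1 ^ 2 + 2 * t0 * t2 - t2 ^ 2 * a) :
    Even g₁ ∧ Even g₂ := by
  have hx0 : x ≠ 0 := by
    rintro rfl
    rw [map_zero] at hx
    exact absurd hx (not_lt.2 zero_le')
  have hvx : 0 < v x := lt_trans zero_lt_one hx
  -- the valuation of `y`
  have hy2 : v y ^ 2 = v x ^ 3 := by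
    have k1 : v (a * x + b) < v (x ^ 3) := by
      refine v.map_add_lt ?_ ?_
      · rw [map_mul, map_pow]
        calc v (a : F) * v x ≤ 1 * v x := by
              gcongr
              exact int_le v a
          _ = v x := one_mul _
          _ < v x ^ 3 := by
              have := pow_lt_pow_right₀ hx (show 1 < 3 by norm_num)
              rwa [pow_one] at this
      · rw [map_pow]
        exact lt_of_le_of_lt (int_le v b) (one_lt_pow₀ hx (by norm_num))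
    have k2 := Valuation.map_add_eq_of_lt_left v k1
    rw [← map_pow, hxy, add_assoc, k2, map_pow]
  have hvy : 0 < v y := (Valuation.pos_iff v).2 hy
  have hw : v (x / y) < 1 := by
    by_contra hc
    rw [not_lt, map_div₀, one_le_div₀ hvy] at hc
    have k1 : v y ^ 2 ≤ v x ^ 2 := pow_le_pow_left₀ zero_le' hc 2
    rw [hy2] at k1
    exact absurd (pow_lt_pow_right₀ hx (show 2 < 3 by norm_num)) (not_lt.2 k1)
  obtain ⟨w, hw1, hw2⟩ := half v (hv _ hw)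
  -- `z = (x / y)² = 4 ζ`
  obtain ⟨ζ, hζ⟩ : ∃ ζ : F, ζ = w ^ 2 := ⟨_, rfl⟩
  have hζ1 : v ζ ≤ 1 := by rw [hζ, map_pow]; exact pow_le_one₀ zero_le' hw1
  have hz : (x / y) ^ 2 = 4 * ζ := by rw [hw2, hζ]; ring
  have hinv : v (1 / x) ≤ 1 := by
    rw [map_div₀, map_one]
    exact div_le_one_of_le₀ hx.le zero_le'
  obtain ⟨i, hi⟩ : ∃ i : F, i = 1 / x := ⟨_, rfl⟩
  have hi1 : v i ≤ 1 := hi ▸ hinv
  obtain ⟨δ, hδ⟩ : ∃ δ : F, δ = -ζ * (a * i + b * i ^ 2) := ⟨_, rfl⟩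
  have hxz : x * (4 * ζ) = 1 + 4 * δ := by
    have k1 : (x / y) ^ 2 * (x ^ 3 + a * x + b) = x ^ 2 := by
      rw [← hxy]
      field_simp
    rw [hz] at k1
    rw [hδ, hi]
    field_simp
    field_simp at k1
    linear_combination k1
  let r' : v.integer := ⟨r, hr⟩
  let s' : v.integer := ⟨s, hs⟩
  let t' : v.integer := ⟨t, ht⟩
  let ζ' : v.integer := ⟨ζ, hζ1⟩
  let i' : v.integer := ⟨i, hi1⟩
  let δ' : v.integer := -ζ' * ((a : v.integer) * i' + (b : v.integer) * i' ^ 2)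
  have hδ1 : v δ ≤ 1 := by rw [hδ]; exact δ'.2
  let d' : v.integer := ⟨δ, hδ1⟩
  let R : v.integer := r' + d' * (1 + 4 * r') + ζ' * (2 * (g₂ : v.integer) + 4 * t') * (b : v.integer)
  let S : v.integer := s' + d' * (2 * (g₁ : v.integer) + 4 * s') - ζ' * (1 + 4 * r') +
    ζ' * (2 * (g₂ : v.integer) + 4 * t') * (a : v.integer)
  let T : v.integer := t' + d' * (2 * (g₂ : v.integer) + 4 * t') - ζ' * (2 * (g₁ : v.integer) + 4 * s')
  have hR : (R : F) = r + δ * (1 + 4 * r) + ζ * (2 * g₂ + 4 * t) * b := rfl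
  have hS : (S : F) = s + δ * (2 * g₁ + 4 * s) - ζ * (1 + 4 * r) + ζ * (2 * g₂ + 4 * t) * a := rfl
  have hT : (T : F) = t + δ * (2 * g₂ + 4 * t) - ζ * (2 * g₁ + 4 * s) := rfl
  refine caseA v hv2 hv (a := a) (b := b) hb g₁ g₂ (r := R) (s := S) (t := T)
    (t0 := t0 * (x / y)) (t1 := t1 * (x / y)) (t2 := t2 * (x / y)) R.2 S.2 T.2 ?_ ?_ ?_
  · rw [hR]
    linear_combination (x / y) ^ 2 * e0 + (1 + 4 * r) * (-hxz) - (x * (1 + 4 * r) +
      (2 * g₂ + 4 * t) * b) * hz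
  · rw [hS]
    linear_combination (x / y) ^ 2 * e1 + (2 * g₁ + 4 * s) * (-hxz) - (x * (2 * g₁ + 4 * s) -
      (1 + 4 * r) + (2 * g₂ + 4 * t) * a) * hz
  · rw [hT]
    linear_combination (x / y) ^ 2 * e2 + (2 * g₂ + 4 * t) * (-hxz) - (x * (2 * g₂ + 4 * t) -
      (2 * g₁ + 4 * s)) * hz

end Val

/-- The class of a point modulo `4`. -/
theorem t_CAL : S_CAL := by
  intro F Γ _ _ _ v hv2 hv a b ha hab g₁ g₂ r s t hr hs ht hPL
  have hb : Odd b := by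
    obtain ⟨k, hk⟩ := ha
    obtain ⟨l, hl⟩ := hab
    exact ⟨k - 2 * l, by omega⟩
  rcases hPL with ⟨g, hg⟩ | ⟨x, y, hy, hxy, g, hg⟩
  · left
    obtain ⟨t0, t1, t2, e0, e1, e2⟩ := sq_form (a := a) (b := b) (1 + 4 * r) (2 * g₁ + 4 * s)
      (2 * g₂ + 4 * t) g (by
        convert hg using 1
        unfold pol
        simp only [map_add, map_mul, map_ofNat, map_one]
        ring)
    exact caseA v hv2 hv hb g₁ g₂ hr hs ht e0 e1 e2
  · obtain ⟨t0, t1, t2, e0, e1, e2⟩ := sq_form (a := a) (b := b)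
      (x * (1 + 4 * r) + (2 * g₂ + 4 * t) * b)
      (x * (2 * g₁ + 4 * s) - (1 + 4 * r) + (2 * g₂ + 4 * t) * a)
      (x * (2 * g₂ + 4 * t) - (2 * g₁ + 4 * s)) g (by
        have h1 : ff F a b ∣ ff F a b * C (2 * g₂ + 4 * t) := dvd_mul_right _ _
        have h2 := dvd_add hg h1
        convert h2 using 1
        unfold pol ff
        simp only [map_add, map_sub, map_mul, map_ofNat, map_one]
        ring)
    by_cases hx : v x ≤ 1
    · exact caseB v hv2 hv ha hab g₁ g₂ hr hs ht hx e0 e1 e2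
    · rw [not_le] at hx
      exact Or.inl (caseC v hv2 hv hb g₁ g₂ hr hs ht hx hy hxy e0 e1 e2)

end Pool.Agent.N323.PV
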